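import Pool.Agent.H224R2.Mah.Defs

/-!
# Task A5: `S m = |h|^(2m)`, smoothness, first derivatives and Laplacian
-/

namespace Pool.Agent.H224R2.Mah

open MeasureTheory Set Filter Topology
open scoped ENNReal RealInnerProductSpace

namespace A5

/-- real derivative of `|f|²` for a holomorphic `f` -/
lemma hasFDerivAt_normSq {f : ℂ → ℂ} {f' u : ℂ} (h : HasDerivAt f f' u) :
    ∃ L : ℂ →L[ℝ] ℝ, HasFDerivAt (fun z => ‖f z‖ ^ 2) L u ∧
      ∀ w, L w = 2 * ((starRingEnd ℂ) (f u) * (f' * w)).re := by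
  have hr : HasFDerivAt f (f' • (1 : ℂ →L[ℝ] ℂ)) u := h.complexToReal_fderiv
  have h1 := (Complex.reCLM.hasFDerivAt (x := f u)).comp u hr
  have h2 := (Complex.imCLM.hasFDerivAt (x := f u)).comp u hr
  have h3 := (h1.pow 2).add (h2.pow 2)
  refine ⟨_, h3.congr_of_eventuallyEq (Eventually.of_forall fun z => ?_), fun w => ?_⟩
  · simp only [Complex.sq_norm, Complex.normSq_apply, Pi.add_apply,
      Function.comp_apply, Complex.reCLM_apply, Complex.imCLM_apply]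
    ring
  · simp
    ring

/-- real derivative of `z ↦ Re (c * (conj (f z) * g z))` -/
lemma hasFDerivAt_conj_mul {f g : ℂ → ℂ} {f' g' u : ℂ} (h : HasDerivAt f f' u)
    (hg : HasDerivAt g g' u) (c : ℂ) :
    ∃ L : ℂ →L[ℝ] ℝ, HasFDerivAt (fun z => (c * ((starRingEnd ℂ) (f z) * g z)).re) L u ∧
      ∀ w, L w = (c * ((starRingEnd ℂ) (f' * w) * g u + (starRingEnd ℂ) (f u) * (g' * w))).re := by
  have hr : HasFDerivAt f (f' • (1 : ℂ →L[ℝ] ℂ)) u := h.complexToReal_fderiv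
  have hgr : HasFDerivAt g (g' • (1 : ℂ →L[ℝ] ℂ)) u := hg.complexToReal_fderiv
  have hc := (Complex.conjCLE.toContinuousLinearMap.hasFDerivAt (x := f u)).comp u hr
  have h1 := ((hc.mul hgr).const_mul c)
  have h2 := (Complex.reCLM.hasFDerivAt (x := c * ((starRingEnd ℂ) (f u) * g u))).comp u h1
  refine ⟨_, h2, fun w => ?_⟩
  simp
  ring

/-- The general statement. -/
theorem gen {P : Set ℂ} (hP : IsOpen P) {h h' : ℂ → ℂ} (hd : ∀ u ∈ P, HasDerivAt h (h' u) u)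
    {m : ℕ} (hm : 1 ≤ m) : ContDiffOn ℝ 3 (fun u => ‖h u‖ ^ (2 * m)) P ∧ ∀ u ∈ P,
    dx (fun u => ‖h u‖ ^ (2 * m)) u =
      2 * m * ‖h u‖ ^ (2 * m - 2) * ((starRingEnd ℂ) (h u) * h' u).re ∧
    dy (fun u => ‖h u‖ ^ (2 * m)) u =
      -(2 * m * ‖h u‖ ^ (2 * m - 2) * ((starRingEnd ℂ) (h u) * h' u).im) ∧
    lap (fun u => ‖h u‖ ^ (2 * m)) u = (2 * m) ^ 2 * ‖h u‖ ^ (2 * m - 2) * ‖h' u‖ ^ 2 := by
  obtain ⟨k, rfl⟩ : ∃ k, m = k + 1 := ⟨m - 1, by omega⟩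
  set f : ℂ → ℂ := fun u => h u ^ (k + 1) with hf
  set f' : ℂ → ℂ := fun u => ((k + 1 : ℕ) : ℂ) * h u ^ k * h' u with hf'
  have hfd : ∀ u ∈ P, HasDerivAt f (f' u) u := fun u hu => by
    have h1 := (hd u hu).pow (k + 1)
    have h2 : HasDerivAt f (((k + 1 : ℕ) : ℂ) * h u ^ (k + 1 - 1) * h' u) u := h1
    rwa [Nat.add_sub_cancel] at h2
  have hfdiff : DifferentiableOn ℂ f P := fun u hu => (hfd u hu).differentiableAt.differentiableWithinAt
  have hf'diff : DifferentiableOn ℂ f' P := by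
    refine (hfdiff.deriv hP).congr fun u hu => ?_
    exact (hfd u hu).deriv.symm
  have hf'd : ∀ u ∈ P, HasDerivAt f' (deriv f' u) u := fun u hu =>
    (hf'diff.differentiableAt (hP.mem_nhds hu)).hasDerivAt
  have hS : (fun u => ‖h u‖ ^ (2 * (k + 1))) = fun u => ‖f u‖ ^ 2 := by
    funext u
    simp only [hf, norm_pow]
    rw [← pow_mul, mul_comm]
  rw [hS]
  -- the first derivatives
  have hdx : ∀ u ∈ P, dx (fun u => ‖f u‖ ^ 2) u = (2 * ((starRingEnd ℂ) (f u) * f' u)).re := by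
    intro u hu
    obtain ⟨L, hL, hLw⟩ := hasFDerivAt_normSq (hfd u hu)
    rw [dx, hL.fderiv, hLw]
    simp
  have hdy : ∀ u ∈ P, dy (fun u => ‖f u‖ ^ 2) u =
      ((2 * Complex.I) * ((starRingEnd ℂ) (f u) * f' u)).re := by
    intro u hu
    obtain ⟨L, hL, hLw⟩ := hasFDerivAt_normSq (hfd u hu)
    rw [dy, hL.fderiv, hLw]
    simp
    ring
  have hconj : ∀ u, (starRingEnd ℂ) (f u) * f' u =
      (((k + 1 : ℕ) * ‖h u‖ ^ (2 * (k + 1) - 2) : ℝ) : ℂ) * ((starRingEnd ℂ) (h u) * h' u) := by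
    intro u
    have e : 2 * (k + 1) - 2 = 2 * k := by omega
    have e2 : (((‖h u‖ ^ (2 * k) : ℝ)) : ℂ) = ((starRingEnd ℂ) (h u) * h u) ^ k := by
      rw [mul_comm ((starRingEnd ℂ) (h u)), Complex.mul_conj, ← Complex.sq_norm]
      push_cast
      rw [pow_mul]
    rw [e, Complex.ofReal_mul, e2]
    simp only [hf, hf', map_pow]
    push_cast
    rw [mul_pow, pow_succ]
    ring
  refine ⟨?_, fun u hu => ⟨?_, ?_, ?_⟩⟩
  · have h1 : ContDiffOn ℂ 3 f P := hfdiff.contDiffOn hP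
    have h2 : ContDiffOn ℝ 3 f P := h1.restrict_scalars ℝ
    exact h2.norm_sq ℝ
  · rw [hdx u hu, hconj]
    simp only [Complex.mul_re, Complex.ofReal_re, Complex.ofReal_im, Complex.mul_im,
      Complex.conj_re, Complex.conj_im]
    simp
    ring
  · rw [hdy u hu, hconj]
    simp only [Complex.mul_re, Complex.ofReal_re, Complex.ofReal_im, Complex.mul_im,
      Complex.conj_re, Complex.conj_im]
    simp
    ring
  · have e1 : dx (fun u => ‖f u‖ ^ 2) =ᶠ[𝓝 u]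
        fun u => (2 * ((starRingEnd ℂ) (f u) * f' u)).re := by
      filter_upwards [hP.mem_nhds hu] with v hv using hdx v hv
    have e2 : dy (fun u => ‖f u‖ ^ 2) =ᶠ[𝓝 u]
        fun u => ((2 * Complex.I) * ((starRingEnd ℂ) (f u) * f' u)).re := by
      filter_upwards [hP.mem_nhds hu] with v hv using hdy v hv
    obtain ⟨L1, hL1, hLw1⟩ := hasFDerivAt_conj_mul (hfd u hu) (hf'd u hu) 2
    obtain ⟨L2, hL2, hLw2⟩ := hasFDerivAt_conj_mul (hfd u hu) (hf'd u hu) (2 * Complex.I)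
    have h1 : dx (dx (fun u => ‖f u‖ ^ 2)) u = L1 1 := by
      rw [dx, e1.fderiv_eq, hL1.fderiv]
    have h2 : dy (dy (fun u => ‖f u‖ ^ 2)) u = L2 Complex.I := by
      rw [dy, e2.fderiv_eq, hL2.fderiv]
    have h3 : lap (fun u => ‖f u‖ ^ 2) u = 4 * ‖f' u‖ ^ 2 := by
      rw [lap, h1, h2, hLw1, hLw2, Complex.sq_norm, Complex.normSq_apply]
      simp only [Complex.mul_re, Complex.mul_im, Complex.add_re, Complex.add_im,
        Complex.conj_re, Complex.conj_im, Complex.I_re, Complex.I_im, Complex.re_ofNat,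
        Complex.im_ofNat, mul_one, map_mul, Complex.conj_I, Complex.neg_re, Complex.neg_im]
      ring
    rw [h3]
    have e : 2 * (k + 1) - 2 = 2 * k := by omega
    simp only [hf', norm_mul, norm_pow, Complex.norm_natCast]
    rw [e, pow_mul]
    push_cast
    ring

end A5

/-- A5. `S m = |h|^(2m)`: smooth, first derivatives and Laplacian, from A4. -/
theorem A5_formulas_of (A4_inverse : IsOpen PP ∧ (∀ u ∈ PP, ‖hh u‖ < 1 ∧ U (hh u) = u ∧
      HasDerivAt hh (U' (hh u))⁻¹ u) ∧ (∀ ζ : ℂ, ‖ζ‖ < 1 → U ζ ∈ PP ∧ hh (U ζ) = ζ) ∧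
      ∀ r : ℝ, r < 1 → IsCompact {u | u ∈ PP ∧ ‖hh u‖ ≤ r})
    {m : ℕ} (hm : 2 ≤ m) : ContDiffOn ℝ 3 (SS m) PP ∧ ∀ u ∈ PP,
    dx (SS m) u = 2 * m * ‖hh u‖ ^ (2 * m - 2) * ((starRingEnd ℂ) (hh u) * (U' (hh u))⁻¹).re ∧
    dy (SS m) u = -(2 * m * ‖hh u‖ ^ (2 * m - 2) * ((starRingEnd ℂ) (hh u) * (U' (hh u))⁻¹).im) ∧
    lap (SS m) u = (2 * m) ^ 2 * ‖hh u‖ ^ (2 * m - 2) * ‖(U' (hh u))⁻¹‖ ^ 2 :=
  A5.gen A4_inverse.1 (fun u hu => (A4_inverse.2.1 u hu).2.2) (by omega)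

end Pool.Agent.H224R2.Mah
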